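import Mathlib
import Pool.Agent.Lib.helper29.BmoDefs

open Filter Topology MeasureTheory Set Pool.Agent.Lib.H29.Bmo
open scoped ENNReal

namespace Pool.Agent.Results.MP_ea8870_an.StarFails

lemma qbfs {n : ℕ} (Q : Set (Fin n → ℝ)) (ν : Measure (Fin n → ℝ)) [IsFiniteMeasure ν]
    (h1 : ν ≪ volume.restrict Q) (h2 : volume.restrict Q ≪ ν) :
    IsQBFS Q 1 fun f => ∫⁻ x, ‖f x‖ₑ ∂ν where
  eq_zero f hf := by
    rw [lintegral_eq_zero_iff' (hf.mono_ac h1).enorm]
    constructor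
    · intro h
      filter_upwards [h2.ae_le h] with x hx
      simpa using hx
    · intro h
      filter_upwards [h1.ae_le h] with x hx
      simpa using hx
  smul c f hf := by
    simp only [Pi.smul_apply, enorm_smul]
    rw [lintegral_const_mul'' _ (hf.mono_ac h1).enorm, Real.enorm_eq_ofReal_abs]
  add f g hf _ := by
    rw [one_mul, ← lintegral_add_left' (hf.mono_ac h1).enorm]
    exact lintegral_mono fun x => enorm_add_le _ _
  complete f hf hfin hc := by
    have hm : ∀ k, MemLp (f k) 1 ν := fun k =>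
      memLp_one_iff_integrable.2 ⟨((hf k).mono_ac h1).aestronglyMeasurable, hfin k⟩
    have hcs : CauchySeq fun k => (hm k).toLp := by
      refine EMetric.cauchySeq_iff.2 fun ε hε => ?_
      obtain ⟨N, hN⟩ := hc ε hε
      refine ⟨N, fun j hj k hk => ?_⟩
      rw [Lp.edist_toLp_toLp, eLpNorm_one_eq_lintegral_enorm]
      exact hN j hj k hk
    obtain ⟨G, hG⟩ := cauchySeq_tendsto_of_complete hcs
    refine ⟨G, (Lp.stronglyMeasurable G).measurable.aemeasurable,
      (memLp_one_iff_integrable.1 (Lp.memLp G)).2, ?_⟩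
    refine (tendsto_iff_edist_tendsto_0.1 hG).congr fun k => ?_
    rw [Lp.edist_def, eLpNorm_one_eq_lintegral_enorm]
    refine lintegral_congr_ae ?_
    filter_upwards [(hm k).coeFn_toLp] with x hx
    simp [hx]
  mono f g _ _ h := by
    refine lintegral_mono_ae ?_
    filter_upwards [h1.ae_le h] with x hx
    simpa only [Real.enorm_eq_ofReal_abs] using ENNReal.ofReal_le_ofReal hx
  pos := ⟨fun _ => 1, aemeasurable_const, by simp, by simp⟩
  fatou f g hf h := by
    have hm : ∀ᵐ x ∂ν, Monotone fun k => ‖f k x‖ₑ := by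
      filter_upwards [h1.ae_le h] with x hx j k hjk
      have h0 : ∀ k, 0 ≤ f k x := fun k => hx.1.trans (hx.2.1 (Nat.zero_le k))
      simpa only [Real.enorm_of_nonneg (h0 _)] using ENNReal.ofReal_le_ofReal (hx.2.1 hjk)
    rw [← lintegral_iSup' (fun k => ((hf k).mono_ac h1).enorm) hm]
    refine lintegral_congr_ae ?_
    filter_upwards [h1.ae_le h, hm] with x hx hx'
    exact tendsto_nhds_unique hx.2.2.enorm (tendsto_atTop_iSup hx')

noncomputable def L (t : ℝ) : ℕ := Nat.log 2 ⌊t⌋₊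

lemma L_mono : Monotone L := fun _ _ h => Nat.log_mono_right (Nat.floor_mono h)

lemma flat (a l : ℝ) : ∃ p, 0 < l → a ≤ p ∧ p + l / 6 ≤ a + l ∧
    ∀ t ∈ Icc p (p + l / 6), L t = L p := by
  by_cases h : a + l / 3 ≤ 0
  · refine ⟨a, fun hl => ⟨le_rfl, by linarith, fun t ht => ?_⟩⟩
    rw [L, L, Nat.floor_of_nonpos (by linarith [ht.2]), Nat.floor_of_nonpos (by linarith)]
  by_cases h2 : L (a + 2 * l / 3 + l / 6) = L (a + 2 * l / 3)
  · exact ⟨a + 2 * l / 3, fun hl => ⟨by linarith, by linarith, fun t ht =>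
      le_antisymm (h2 ▸ L_mono ht.2) (L_mono ht.1)⟩⟩
  refine ⟨a + 2 * l / 3 + l / 6, fun hl => ⟨by linarith, by linarith, fun t ht =>
    le_antisymm ?_ (L_mono ht.1)⟩⟩
  have h3 : L (a + 2 * l / 3) ≤ L (a + 2 * l / 3 + l / 6) := L_mono (by linarith)
  have h4 : L t ≤ L (a + l) := L_mono (by linarith [ht.2])
  have h5 : ⌊a + l⌋₊ < 2 * ⌊a + 2 * l / 3⌋₊ + 2 := by
    rw [Nat.floor_lt (by linarith)]
    push_cast
    linarith [Nat.lt_floor_add_one (a + 2 * l / 3)]
  have h6 : Nat.log 2 (⌊a + l⌋₊ / 2) ≤ L (a + 2 * l / 3) := Nat.log_mono_right (by omega)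
  rw [Nat.log_div_base] at h6
  have h7 : L (a + l) = Nat.log 2 ⌊a + l⌋₊ := rfl
  omega

variable {n : ℕ}

/-- A slab of the cube. -/
def slab (a : Fin (n + 1) → ℝ) (l p : ℝ) : Set (Fin (n + 1) → ℝ) :=
  Icc (Fin.cons p fun i => a i.succ) (Fin.cons (p + l / 6) fun i => a i.succ + l)

lemma vol_cube (a : Fin (n + 1) → ℝ) (l : ℝ) :
    volume (cube a l) = ENNReal.ofReal l ^ (n + 1) := by
  simp [cube, Real.volume_Icc_pi]

lemma vol_slab (a : Fin (n + 1) → ℝ) (l p : ℝ) :
    volume (slab a l p) = 6⁻¹ * volume (cube a l) := by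
  rw [vol_cube, slab, Real.volume_Icc_pi, Fin.prod_univ_succ, pow_succ']
  simp only [Fin.cons_zero, Fin.cons_succ, add_sub_cancel_left, Finset.prod_const,
    Finset.card_univ, Fintype.card_fin]
  rw [ENNReal.ofReal_div_of_pos (by norm_num), ENNReal.div_eq_inv_mul, mul_assoc]
  simp

lemma slab_sub {a : Fin (n + 1) → ℝ} {l p : ℝ} (h1 : a 0 ≤ p) (h2 : p + l / 6 ≤ a 0 + l) :
    slab a l p ⊆ cube a l :=
  Icc_subset_Icc (fun i => Fin.cases h1 (fun _ => le_rfl) i)
    fun i => Fin.cases h2 (fun _ => le_rfl) i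

lemma slab0 {a x : Fin (n + 1) → ℝ} {l p : ℝ} (h : x ∈ slab a l p) : x 0 ∈ Icc p (p + l / 6) :=
  ⟨h.1 0, h.2 0⟩

noncomputable def F (x : Fin (n + 1) → ℝ) : ℝ := 2 ^ L (x 0)

lemma F_meas : Measurable (F : (Fin (n + 1) → ℝ) → ℝ) :=
  (Measurable.of_discrete (f := fun k : ℕ => (2 : ℝ) ^ Nat.log 2 k)).comp
    (Nat.measurable_floor.comp (measurable_pi_apply 0))

lemma low (a : Fin (n + 1) → ℝ) {l p s : ℝ} (hl : 0 < l) (h1 : a 0 ≤ p)
    (h2 : p + l / 6 ≤ a 0 + l) (g : (Fin (n + 1) → ℝ) → ℝ) (h : ∀ x ∈ slab a l p, s ≤ |g x|) :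
    ENNReal.ofReal s * 6⁻¹ ≤ L1 (n + 1) a l g := by
  have h0 : volume (cube a l) ≠ 0 := by simp [vol_cube, hl]
  have ht : volume (cube a l) ≠ ∞ := by simp [vol_cube]
  have : ENNReal.ofReal s * volume (slab a l p) ≤ ∫⁻ x in cube a l, ‖g x‖ₑ := by
    rw [← setLIntegral_const]
    refine le_trans (setLIntegral_mono_ae' measurableSet_Icc (ae_of_all _ fun x hx => ?_))
      (lintegral_mono_set (slab_sub h1 h2))
    rw [Real.enorm_eq_ofReal_abs]
    exact ENNReal.ofReal_le_ofReal (h x hx)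
  refine le_trans (le_of_eq ?_) (mul_le_mul_right this _)
  rw [vol_slab, mul_comm (volume (cube a l))⁻¹, mul_assoc, mul_assoc,
    ENNReal.mul_inv_cancel h0 ht, mul_one]

theorem result (n : ℕ) : ∃ X : Family (n + 1),
    (∀ a l, 0 < l → IsQBFS (cube a l) 1 (X a l)) ∧
    (∀ a l, 0 < l → 6⁻¹ ≤ X a l ((cube a l).indicator 1) ∧ X a l ((cube a l).indicator 1) ≤ 2) ∧
    (∀ f, bmoX X f ≤ 2 * bmoX (L1 (n + 1)) f) ∧
    ∃ f, Measurable f ∧ LocallyIntegrable f ∧ bmoStar X f ≤ 1 ∧ bmoX (L1 (n + 1)) f = ∞ := by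
  choose p hp using flat
  let e : ℝ → ℝ≥0∞ := fun t => (ENNReal.ofReal (2 ^ L t))⁻¹
  have he1 : ∀ t, e t ≤ 1 := fun t =>
    ENNReal.inv_le_one.2 (ENNReal.one_le_ofReal.2 (one_le_pow₀ one_le_two))
  have he0 : ∀ t, e t ≠ 0 := fun t => by simp [e]
  let ν : (Fin (n + 1) → ℝ) → ℝ → Measure (Fin (n + 1) → ℝ) := fun a l =>
    (volume (cube a l))⁻¹ • (volume.restrict (slab a l (p (a 0) l)) +
      e (a 0 + l) • volume.restrict (cube a l))
  have hν : ∀ a l (g : (Fin (n + 1) → ℝ) → ℝ≥0∞), ∫⁻ x, g x ∂ν a l = (volume (cube a l))⁻¹ *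
      ((∫⁻ x in slab a l (p (a 0) l), g x) + e (a 0 + l) * ∫⁻ x in cube a l, g x) := by
    intro a l g
    simp only [ν, lintegral_smul_measure, lintegral_add_measure, smul_eq_mul]
  have h0 : ∀ (a : Fin (n + 1) → ℝ) l, 0 < l → volume (cube a l) ≠ 0 := fun a l hl => by
    simp [vol_cube, hl]
  have ht : ∀ (a : Fin (n + 1) → ℝ) l, volume (cube a l) ≠ ∞ := fun a l => by simp [vol_cube]
  have hs : ∀ (a : Fin (n + 1) → ℝ) l, 0 < l → slab a l (p (a 0) l) ⊆ cube a l := fun a l hl =>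
    slab_sub (hp _ _ hl).1 (hp _ _ hl).2.1
  have hup : ∀ a l, 0 < l → ∀ g : (Fin (n + 1) → ℝ) → ℝ,
      ∫⁻ x, ‖g x‖ₑ ∂ν a l ≤ 2 * L1 (n + 1) a l g := by
    intro a l hl g
    rw [hν, L1, mul_left_comm, two_mul]
    gcongr
    · exact hs a l hl
    · exact mul_le_of_le_one_left' (he1 _)
  have hone : ∀ (a : Fin (n + 1) → ℝ) l, 0 < l →
      L1 (n + 1) a l ((cube a l).indicator 1) = 1 := fun a l hl => by
    rw [L1, setLIntegral_congr_fun (s := cube a l) (g := fun _ => 1) measurableSet_Icc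
      fun x (hx : x ∈ cube a l) => by simp [hx], setLIntegral_one,
      ENNReal.inv_mul_cancel (h0 a l hl) (ht a l)]
  refine ⟨fun a l f => ∫⁻ x, ‖f x‖ₑ ∂ν a l, fun a l hl => ?_, fun a l hl => ⟨?_, ?_⟩, fun f => ?_,
    F, F_meas, ?_, ?_, ?_⟩
  · have : IsFiniteMeasure (ν a l) := ⟨by
      rw [← lintegral_one, hν, setLIntegral_one, setLIntegral_one, vol_slab]
      refine ENNReal.mul_lt_top (ENNReal.inv_lt_top.2 (pos_iff_ne_zero.2 (h0 a l hl)))
        (ENNReal.add_lt_top.2 ⟨ENNReal.mul_lt_top (by simp) (ht a l).lt_top,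
          ENNReal.mul_lt_top ((he1 _).trans_lt (by simp)) (ht a l).lt_top⟩)⟩
    refine qbfs _ _ (Measure.AbsolutelyContinuous.smul_left (.add_left
      (Measure.restrict_mono (hs a l hl) le_rfl).absolutelyContinuous
      (Measure.AbsolutelyContinuous.rfl.smul_left _)) _) ?_
    exact ((Measure.absolutelyContinuous_smul (he0 _)).add_right' _).trans
      (Measure.absolutelyContinuous_smul (by simp [ht]))
  · simp only
    rw [hν, setLIntegral_congr_fun (s := slab a l (p (a 0) l)) (g := fun _ => 1) measurableSet_Icc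
      fun x hx => by simp [hs a l hl hx], setLIntegral_one, vol_slab]
    refine le_trans (le_of_eq ?_) (mul_le_mul_right le_self_add _)
    rw [mul_left_comm, ENNReal.inv_mul_cancel (h0 a l hl) (ht a l), mul_one]
  · simpa [hone a l hl] using hup a l hl ((cube a l).indicator 1)
  · refine iSup_le fun a => iSup_le fun l => iSup_le fun hl => (hup a l hl _).trans ?_
    gcongr
    exact le_iSup_of_le a (le_iSup₂_of_le l hl le_rfl)
  · refine (locallyIntegrable_iff).2 fun K hK => ?_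
    obtain ⟨b, hb⟩ := (hK.image (continuous_apply 0)).bddAbove
    refine Measure.integrableOn_of_bounded (M := 2 ^ L b) hK.measure_lt_top.ne
      F_meas.aestronglyMeasurable (ae_restrict_of_forall_mem hK.measurableSet fun x hx => ?_)
    rw [F, Real.norm_of_nonneg (by positivity)]
    exact pow_le_pow_right₀ one_le_two (L_mono (hb ⟨x, hx, rfl⟩))
  · refine iSup_le fun a => iSup_le fun l => iSup_le fun hl =>
      iInf_le_of_le (2 ^ L (p (a 0) l)) ?_
    have h1 : ∫⁻ x in cube a l, ‖F x - 2 ^ L (p (a 0) l)‖ₑ ≤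
        ENNReal.ofReal (2 ^ L (a 0 + l)) * volume (cube a l) := by
      rw [← setLIntegral_const]
      refine setLIntegral_mono_ae' measurableSet_Icc (ae_of_all _ fun x hx => ?_)
      rw [Real.enorm_eq_ofReal_abs]
      have e1 : F x ≤ 2 ^ L (a 0 + l) := pow_le_pow_right₀ one_le_two (L_mono (hx.2 0))
      have e2 : (2 : ℝ) ^ L (p (a 0) l) ≤ 2 ^ L (a 0 + l) :=
        pow_le_pow_right₀ one_le_two (L_mono (by linarith [(hp (a 0) l hl).2.1]))
      have e3 : 0 < F x := by unfold F; positivity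
      have e4 : (0 : ℝ) < 2 ^ L (p (a 0) l) := by positivity
      exact ENNReal.ofReal_le_ofReal (abs_le.2 ⟨by linarith, by linarith⟩)
    simp only
    rw [hν, setLIntegral_congr_fun (s := slab a l (p (a 0) l)) (g := fun _ => 0) measurableSet_Icc
      fun x hx => by simp [F, (hp _ _ hl).2.2 _ (slab0 hx)], lintegral_zero, zero_add]
    refine le_trans (mul_le_mul_right (mul_le_mul_right h1 _) _) (le_of_eq ?_)
    rw [← mul_assoc (e _), ENNReal.inv_mul_cancel (by simp) (by simp), one_mul,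
      ENNReal.inv_mul_cancel (h0 a l hl) (ht a l)]
  · have key : ∀ k : ℕ, ENNReal.ofReal (2 ^ k / 2) * 6⁻¹ ≤ bmoX (L1 (n + 1)) F := by
      intro k
      set a : Fin (n + 1) → ℝ := fun _ => 2 ^ (k + 1) - 1 / 2 with ha
      refine le_iSup_of_le a (le_iSup₂_of_le 1 one_pos ?_)
      set m := ⨍ y in cube a 1, F y
      rcases le_total m (3 * 2 ^ k / 2) with h | h
      · refine low a one_pos (p := 2 ^ (k + 1)) (by simp [ha]) (by simp only [ha]; linarith) _
          fun x hx => le_abs.2 (Or.inl ?_)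
        have h1 : k + 1 ≤ L (x 0) := Nat.le_log_of_pow_le one_lt_two
          (Nat.le_floor (by push_cast; exact (slab0 hx).1))
        have h2 : (2 : ℝ) ^ (k + 1) ≤ F x := pow_le_pow_right₀ one_le_two h1
        rw [pow_succ] at h2
        linarith
      · refine low a one_pos (p := 2 ^ (k + 1) - 1 / 2) le_rfl (by simp only [ha]; linarith) _
          fun x hx => le_abs.2 (Or.inr ?_)
        have h1 : L (x 0) < k + 1 := Nat.log_lt_of_lt_pow' (by simp)
          ((Nat.floor_lt' (by positivity)).2 (by push_cast; linarith [(slab0 hx).2]))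
        have h2 : F x ≤ (2 : ℝ) ^ k := pow_le_pow_right₀ one_le_two (Nat.le_of_lt_succ h1)
        linarith
    have ht : Tendsto (fun k : ℕ => ENNReal.ofReal (2 ^ k / 2) * 6⁻¹) atTop (𝓝 (∞ * 6⁻¹)) :=
      ENNReal.Tendsto.mul_const (ENNReal.tendsto_ofReal_atTop.comp
        ((tendsto_pow_atTop_atTop_of_one_lt one_lt_two).atTop_div_const two_pos)) (by simp)
    simpa using le_of_tendsto' ht key

end Pool.Agent.Results.MP_ea8870_an.StarFails
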